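import Pool.Agent.Q195.SZ.Count

set_option autoImplicit false

/-!
# Real zeros of the signed sums of `1 / (t ^ 2 + n ^ 2)`

For every sequence of signs the number of real zeros in `(-X, X)` is `o(X)`.
-/

open Filter Topology

namespace Pool.Agent.Results.MP_51e19e_an.SublinearZeros

/-- `f_a(t) = ∑_{n ≥ 1} a_n / (t ^ 2 + n ^ 2)` (the sum over `n ≥ 0` of the terms with index
`n + 1`). -/
noncomputable def f (a : ℕ → ℝ) (t : ℝ) : ℝ := ∑' n : ℕ, a (n + 1) / (t ^ 2 + ((n : ℝ) + 1) ^ 2)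

/-- The set of the real zeros of `f_a` in the open interval `(-X, X)`. -/
def zeros (a : ℕ → ℝ) (X : ℝ) : Set ℝ := {t | |t| < X ∧ f a t = 0}

/-- For every sequence `a_1, a_2, ...` of signs, `Z_a(X)`, the number of distinct real zeros of `f_a`
in `(-X, X)`, is finite for every `X`, and `Z_a(X) / X` tends to `0` as `X` tends to infinity. -/
theorem result (a : ℕ → ℝ) (ha : ∀ n, 1 ≤ n → a n = 1 ∨ a n = -1) :
    (∀ X, (zeros a X).Finite) ∧
      Tendsto (fun X : ℝ => ((zeros a X).ncard : ℝ) / X) atTop (𝓝 0) :=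
  ⟨fun X => Q195.SZ.ZZ_finite (fun n => ha (n + 1) (by omega)) X,
    Q195.SZ.main (fun n => ha (n + 1) (by omega))⟩

end Pool.Agent.Results.MP_51e19e_an.SublinearZeros
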